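import Pool.Agent.H78.OX.Targets

/-!
# Short strings have low positions
-/

set_option autoImplicit false

namespace Pool.Agent.H74.OX

open Pool.Agent.H6.NB Pool.Agent.H70.OQ Pool.Agent.H70.EH Pool.Agent.H70.PX
  Pool.Agent.H78.XQ Pool.Agent.H70.PW Pool.Agent.H78.OX

theorem lwx (hCLX : Pool.Agent.H78.OX.T_CLX) (hLVL : Pool.Agent.H6.NB.T_LVL)
    (hLNX : Pool.Agent.H78.OX.T_LNX) : Pool.Agent.H78.OX.T_LWX := by
  intro J n a o s w m hn hm hw
  obtain ⟨hk, hb, hx, -⟩ := hLNX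
  have hlt : ∀ s' : Om n (2 ^ a), s'.1.length ≤ m → lv n s'.1 < lv n s.1 := by
    intro s' hs'
    exact (hLVL n a hn).1 s.1 s'.1 s'.2.1 (le_trans (Nat.pow_le_pow_left hs' 2) hm)
  obtain ⟨c1, c2, c3, c4, c5⟩ := hCLX J n (2 ^ a) o
  rcases c5 w with ⟨p, h⟩ | ⟨s', h⟩ | ⟨s', i, v, h⟩ | ⟨s', z, h⟩ | h
  · rw [h, c1 p]
    trivial
  · have hl := hk s'.1
    rw [← h] at hl
    rw [h, c2 s']
    exact hlt s' (by omega)
  · have hl := hb s'.1 i v
    rw [← h] at hl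
    rw [h, c3 s' i v]
    exact hlt s' (by omega)
  · have hl := hx s'.1 z
    rw [← h] at hl
    rw [h, c4 s' z]
    exact hlt s' (by omega)
  · rw [h]
    trivial

end Pool.Agent.H74.OX
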